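import Mathlib

open Metric Set Filter Topology

namespace Pool.Agent.Helper8.Abund

section general

variable {E F : Type*} [NormedAddCommGroup E] [NormedSpace ℂ E]
  [NormedAddCommGroup F] [NormedSpace ℂ F]

/-- Cauchy estimate for the Fréchet derivative of a bounded holomorphic map. -/
theorem norm_fderiv_le_of_bound {f : E → F} {w : E} {r M : ℝ} (hr : 0 < r)
    (hf : DifferentiableOn ℂ f (ball w (2 * r))) (hM : ∀ u ∈ ball w (2 * r), ‖f u‖ ≤ M) :
    ‖fderiv ℂ f w‖ ≤ M / r := by
  have hM0 : 0 ≤ M := (norm_nonneg _).trans (hM w (mem_ball_self (by positivity)))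
  refine ContinuousLinearMap.opNorm_le_bound _ (by positivity) fun v => ?_
  rcases eq_or_ne v 0 with rfl | hv
  · simp
  have hv' : 0 < ‖v‖ := norm_pos_iff.mpr hv
  have hin : ∀ t ∈ closedBall (0 : ℂ) (r / ‖v‖), w + t • v ∈ ball w (2 * r) := by
    intro t ht
    rw [mem_closedBall_zero_iff] at ht
    rw [mem_ball, dist_eq_norm, add_sub_cancel_left, norm_smul]
    calc ‖t‖ * ‖v‖ ≤ r / ‖v‖ * ‖v‖ := by gcongr
      _ = r := by field_simp
      _ < 2 * r := by linarith
  have hdiff : ∀ t ∈ closedBall (0 : ℂ) (r / ‖v‖),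
      DifferentiableAt ℂ (fun s : ℂ => f (w + s • v)) t := by
    intro t ht
    have h1 : DifferentiableAt ℂ f (w + t • v) :=
      (hf _ (hin t ht)).differentiableAt (isOpen_ball.mem_nhds (hin t ht))
    exact h1.comp t (by fun_prop)
  have hg : DiffContOnCl ℂ (fun s : ℂ => f (w + s • v)) (ball 0 (r / ‖v‖)) := by
    apply DifferentiableOn.diffContOnCl
    intro t ht
    exact (hdiff t (closure_ball_subset_closedBall ht)).differentiableWithinAt
  have hd : deriv (fun s : ℂ => f (w + s • v)) 0 = fderiv ℂ f w v := by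
    have h1 : DifferentiableAt ℂ f w :=
      (hf w (mem_ball_self (by positivity))).differentiableAt
        (isOpen_ball.mem_nhds (mem_ball_self (by positivity)))
    have h2 : HasDerivAt (fun s : ℂ => w + s • v) v 0 := by
      have := ((hasDerivAt_id (0 : ℂ)).smul_const v).const_add w
      simpa using this
    have h3 : HasFDerivAt f (fderiv ℂ f w) (w + (0 : ℂ) • v) := by
      simpa using h1.hasFDerivAt
    exact (h3.comp_hasDerivAt (0 : ℂ) h2).deriv
  have := Complex.norm_deriv_le_of_forall_mem_sphere_norm_le (R := r / ‖v‖) (by positivity) hg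
    (C := M) (fun t ht => hM _ (hin t (sphere_subset_closedBall ht)))
  rw [hd] at this
  calc _ ≤ M / (r / ‖v‖) := this
    _ = M / r * ‖v‖ := by field_simp

/-- The derivative of a bounded holomorphic map is Lipschitz on a smaller ball. -/
theorem norm_fderiv_sub_le {f : E → F} {z : E} {r M : ℝ} (hr : 0 < r)
    (hf : DifferentiableOn ℂ f (ball z (6 * r))) (hM : ∀ u ∈ ball z (6 * r), ‖f u‖ ≤ M)
    {w₁ w₂ : E} (h₁ : w₁ ∈ ball z r) (h₂ : w₂ ∈ ball z r) :
    ‖fderiv ℂ f w₂ - fderiv ℂ f w₁‖ ≤ M / r / r * ‖w₂ - w₁‖ := by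
  have hsub : ∀ u ∈ ball w₁ (2 * r), u ∈ ball z (6 * r) := fun u hu => by
    rw [mem_ball] at *
    calc dist u z ≤ dist u w₁ + dist w₁ z := dist_triangle _ _ _
      _ < 6 * r := by linarith
  -- bound of the derivative
  have hbd : ∀ u ∈ ball z (4 * r), ‖fderiv ℂ f u‖ ≤ M / r := by
    intro u hu
    have hs : ball u (2 * r) ⊆ ball z (6 * r) := by
      intro x hx
      rw [mem_ball] at *
      calc dist x z ≤ dist x u + dist u z := dist_triangle _ _ _
        _ < 6 * r := by linarith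
    exact norm_fderiv_le_of_bound hr (hf.mono hs) (fun x hx => hM x (hs hx))
  have hdiff : ∀ u ∈ ball z (6 * r), DifferentiableAt ℂ f u := fun u hu =>
    (hf u hu).differentiableAt (isOpen_ball.mem_nhds hu)
  have hdist : ‖w₂ - w₁‖ < 2 * r := by
    rw [← dist_eq_norm]
    rw [mem_ball] at *
    calc dist w₂ w₁ ≤ dist w₂ z + dist w₁ z := dist_triangle_right _ _ _
      _ < 2 * r := by linarith
  have hsub2 : ∀ u ∈ ball w₁ (2 * r), u ∈ ball z (4 * r) ∧ u + (w₂ - w₁) ∈ ball z (4 * r) := by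
    intro u hu
    constructor
    · rw [mem_ball] at *
      calc dist u z ≤ dist u w₁ + dist w₁ z := dist_triangle _ _ _
        _ < 4 * r := by linarith
    · rw [mem_ball, dist_eq_norm] at *
      calc ‖u + (w₂ - w₁) - z‖ = ‖(u - w₁) + (w₂ - z)‖ := by congr 1; abel
        _ ≤ ‖u - w₁‖ + ‖w₂ - z‖ := norm_add_le _ _
        _ < 4 * r := by linarith
  have hg : DifferentiableOn ℂ (fun u => f (u + (w₂ - w₁)) - f u) (ball w₁ (2 * r)) := by
    intro u hu
    obtain ⟨h3, h4⟩ := hsub2 u hu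
    have h5 := hdiff _ (ball_subset_ball (by linarith) h4)
    have h6 := hdiff _ (ball_subset_ball (by linarith) h3)
    exact ((h5.comp u (by fun_prop)).sub h6).differentiableWithinAt
  have hgM : ∀ u ∈ ball w₁ (2 * r), ‖f (u + (w₂ - w₁)) - f u‖ ≤ M / r * ‖w₂ - w₁‖ := by
    intro u hu
    obtain ⟨h3, h4⟩ := hsub2 u hu
    have := (convex_ball z (4 * r)).norm_image_sub_le_of_norm_fderiv_le (𝕜 := ℂ)
      (fun x hx => hdiff x (ball_subset_ball (by linarith) hx)) hbd h3 h4
    simpa using this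
  have h7 := norm_fderiv_le_of_bound hr hg hgM
  have h8 : fderiv ℂ (fun u => f (u + (w₂ - w₁)) - f u) w₁ = fderiv ℂ f w₂ - fderiv ℂ f w₁ := by
    have h9 : HasFDerivAt f (fderiv ℂ f w₂) (w₁ + (w₂ - w₁)) := by
      have : DifferentiableAt ℂ f w₂ := hdiff _ (ball_subset_ball (by linarith) h₂)
      simpa using this.hasFDerivAt
    have h10 : HasFDerivAt f (fderiv ℂ f w₁) w₁ :=
      (hdiff _ (ball_subset_ball (by linarith) h₁)).hasFDerivAt
    have h11 : HasFDerivAt (fun u => f (u + (w₂ - w₁))) (fderiv ℂ f w₂) w₁ := by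
      rw [hasFDerivAt_comp_add_right]
      exact h9
    exact (h11.sub h10).fderiv
  rw [h8] at h7
  calc _ ≤ M / r * ‖w₂ - w₁‖ / r := h7
    _ = M / r / r * ‖w₂ - w₁‖ := by ring

/-- Directional derivatives of a bounded holomorphic map are differentiable. -/
theorem differentiableAt_fderiv_apply [CompleteSpace F] {f : E → F} {z : E} {r M : ℝ} (hr : 0 < r)
    (hf : DifferentiableOn ℂ f (ball z (6 * r))) (hM : ∀ u ∈ ball z (6 * r), ‖f u‖ ≤ M) (v : E) :
    DifferentiableAt ℂ (fun w => fderiv ℂ f w v) z := by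
  have hM0 : 0 ≤ M := (norm_nonneg _).trans (hM z (mem_ball_self (by positivity)))
  -- the steps
  obtain ⟨δ, hδ, hδv⟩ : ∃ δ : ℝ, 0 < δ ∧ δ * ‖v‖ < r / 2 := by
    refine ⟨r / 2 / (‖v‖ + 1), by positivity, ?_⟩
    rw [div_mul_eq_mul_div, div_lt_iff₀ (by positivity)]
    nlinarith [norm_nonneg v]
  set h : ℕ → ℂ := fun n => ((δ / (n + 1) : ℝ) : ℂ) with hh
  have hh0 : ∀ n, h n ≠ 0 := fun n => by
    simp only [hh, ne_eq, Complex.ofReal_eq_zero]
    positivity
  have hhn : ∀ n, ‖h n‖ = δ / (n + 1) := fun n => by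
    simp only [hh, Complex.norm_real, Real.norm_eq_abs]
    exact abs_of_pos (by positivity)
  have hhle : ∀ n, ‖h n‖ ≤ δ := fun n => by
    rw [hhn]
    exact div_le_self hδ.le (by linarith [n.cast_nonneg (α := ℝ)])
  have hhv : ∀ n, ‖h n • v‖ < r / 2 := fun n => by
    rw [norm_smul]
    calc ‖h n‖ * ‖v‖ ≤ δ * ‖v‖ := by gcongr; exact hhle n
      _ < r / 2 := hδv
  have hmem : ∀ n, ∀ w ∈ ball z (r / 2), w + h n • v ∈ ball z r := fun n w hw => by
    rw [mem_ball, dist_eq_norm] at *
    calc ‖w + h n • v - z‖ = ‖(w - z) + h n • v‖ := by congr 1; abel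
      _ ≤ ‖w - z‖ + ‖h n • v‖ := norm_add_le _ _
      _ < r := by linarith [hhv n]
  have hdiff : ∀ u ∈ ball z (6 * r), DifferentiableAt ℂ f u := fun u hu =>
    (hf u hu).differentiableAt (isOpen_ball.mem_nhds hu)
  set q : ℕ → E → F := fun n w => (h n)⁻¹ • (f (w + h n • v) - f w) with hq
  set q' : ℕ → E → (E →L[ℂ] F) := fun n w =>
    (h n)⁻¹ • (fderiv ℂ f (w + h n • v) - fderiv ℂ f w) with hq'
  have hqd : ∀ n, ∀ w ∈ ball z (r / 2), HasFDerivAt (q n) (q' n w) w := by
    intro n w hw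
    have h1 : HasFDerivAt (fun u => f (u + h n • v)) (fderiv ℂ f (w + h n • v)) w := by
      rw [hasFDerivAt_comp_add_right]
      exact (hdiff _ (ball_subset_ball (by linarith) (hmem n w hw))).hasFDerivAt
    have h2 := (hdiff w (ball_subset_ball (by linarith) hw)).hasFDerivAt
    exact (h1.sub h2).const_smul _
  -- uniform convergence of the difference quotients
  have hconv : ∀ n, ∀ w ∈ ball z (r / 2),
      ‖q n w - fderiv ℂ f w v‖ ≤ M / r / r * ‖v‖ ^ 2 * ‖h n‖ := by
    intro n w hw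
    have hseg : ∀ x ∈ segment ℝ w (w + h n • v), ‖fderiv ℂ f x - fderiv ℂ f w‖
        ≤ M / r / r * ‖h n • v‖ := by
      intro x hx
      have hxr : x ∈ ball z r :=
        (convex_ball z r).segment_subset (ball_subset_ball (by linarith) hw) (hmem n w hw) hx
      refine (norm_fderiv_sub_le hr hf hM (ball_subset_ball (by linarith) hw) hxr).trans ?_
      gcongr
      have := norm_sub_le_of_mem_segment hx
      simpa using this
    have h3 := (convex_segment w (w + h n • v)).norm_image_sub_le_of_norm_hasFDerivWithin_le'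
      (𝕜 := ℂ) (f := f) (f' := fun x => fderiv ℂ f x) (φ := fderiv ℂ f w)
      (C := M / r / r * ‖h n • v‖)
      (fun x hx => ((hdiff x (ball_subset_ball (by linarith)
        ((convex_ball z r).segment_subset (ball_subset_ball (by linarith) hw)
          (hmem n w hw) hx))).hasFDerivAt).hasFDerivWithinAt)
      hseg (left_mem_segment ℝ _ _) (right_mem_segment ℝ _ _)
    have h4 : q n w - fderiv ℂ f w v =
        (h n)⁻¹ • (f (w + h n • v) - f w - fderiv ℂ f w (w + h n • v - w)) := by
      simp only [hq, add_sub_cancel_left, map_smul]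
      rw [smul_sub (h n)⁻¹ (f (w + h n • v) - f w), smul_smul, inv_mul_cancel₀ (hh0 n), one_smul]
    rw [h4, norm_smul, norm_inv]
    have h5 : 0 < ‖h n‖ := norm_pos_iff.mpr (hh0 n)
    rw [add_sub_cancel_left] at h3
    calc ‖h n‖⁻¹ * ‖f (w + h n • v) - f w - fderiv ℂ f w (w + h n • v - w)‖
        ≤ ‖h n‖⁻¹ * (M / r / r * ‖h n • v‖ * ‖h n • v‖) := by
          gcongr
          simpa using h3
      _ = M / r / r * ‖v‖ ^ 2 * ‖h n‖ := by
          rw [norm_smul]; field_simp
  -- the derivatives are uniformly Cauchy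
  have hcau : ∀ m n, ∀ w ∈ ball z (r / 4),
      ‖q' m w - q' n w‖ ≤ M / r / r * ‖v‖ ^ 2 * (‖h m‖ + ‖h n‖) / (r / 8) := by
    intro m n w hw
    have hs : ball w (2 * (r / 8)) ⊆ ball z (r / 2) := by
      intro x hx
      rw [mem_ball] at *
      calc dist x z ≤ dist x w + dist w z := dist_triangle _ _ _
        _ < r / 2 := by linarith
    have h1 : DifferentiableOn ℂ (fun u => q m u - q n u) (ball w (2 * (r / 8))) := fun x hx =>
      ((hqd m x (hs hx)).sub (hqd n x (hs hx))).differentiableAt.differentiableWithinAt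
    have h2 : ∀ u ∈ ball w (2 * (r / 8)), ‖q m u - q n u‖
        ≤ M / r / r * ‖v‖ ^ 2 * (‖h m‖ + ‖h n‖) := fun u hu => by
      calc ‖q m u - q n u‖ = ‖(q m u - fderiv ℂ f u v) - (q n u - fderiv ℂ f u v)‖ := by
            congr 1; abel
        _ ≤ ‖q m u - fderiv ℂ f u v‖ + ‖q n u - fderiv ℂ f u v‖ := norm_sub_le _ _
        _ ≤ M / r / r * ‖v‖ ^ 2 * ‖h m‖ + M / r / r * ‖v‖ ^ 2 * ‖h n‖ :=
            add_le_add (hconv m u (hs hu)) (hconv n u (hs hu))
        _ = _ := by ring
    have h3 := norm_fderiv_le_of_bound (by positivity) h1 h2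
    have hw2 : w ∈ ball z (r / 2) := ball_subset_ball (by linarith) hw
    have h4 : fderiv ℂ (fun u => q m u - q n u) w = q' m w - q' n w :=
      ((hqd m w hw2).sub (hqd n w hw2)).fderiv
    rwa [h4] at h3
  have hh_tendsto : Tendsto (fun n => ‖h n‖) atTop (𝓝 0) := by
    simp only [hhn]
    have := (tendsto_one_div_add_atTop_nhds_zero_nat (𝕜 := ℝ)).const_mul δ
    simpa [div_eq_mul_inv] using this
  set C := M / r / r * ‖v‖ ^ 2 / (r / 8) with hC
  have hC0 : 0 ≤ C := by positivity
  have hcau' : UniformCauchySeqOn q' atTop (ball z (r / 4)) := by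
    rw [Metric.uniformCauchySeqOn_iff]
    intro ε hε
    have h1 : ∀ᶠ n in atTop, ‖h n‖ < ε / (2 * (C + 1)) :=
      hh_tendsto.eventually_lt_const (by positivity)
    obtain ⟨N, hN⟩ := eventually_atTop.mp h1
    refine ⟨N, fun m hm n hn w hw => ?_⟩
    rw [dist_eq_norm]
    calc ‖q' m w - q' n w‖ ≤ M / r / r * ‖v‖ ^ 2 * (‖h m‖ + ‖h n‖) / (r / 8) := hcau m n w hw
      _ = C * (‖h m‖ + ‖h n‖) := by rw [hC]; ring
      _ ≤ C * (ε / (2 * (C + 1)) + ε / (2 * (C + 1))) := by
          gcongr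
          · exact (hN m hm).le
          · exact (hN n hn).le
      _ = C / (C + 1) * ε := by field_simp; ring
      _ < 1 * ε := by
          gcongr
          rw [div_lt_one (by positivity)]
          linarith
      _ = ε := one_mul ε
  have hlim : ∀ w ∈ ball z (r / 4), ∃ L, Tendsto (fun n => q' n w) atTop (𝓝 L) := fun w hw =>
    cauchySeq_tendsto_of_complete (hcau'.cauchySeq hw)
  choose! g' hg' using hlim
  have hunif : TendstoUniformlyOn q' g' atTop (ball z (r / 4)) :=
    hcau'.tendstoUniformlyOn_of_tendsto hg'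
  have hpt : ∀ w ∈ ball z (r / 4), Tendsto (fun n => q n w) atTop (𝓝 (fderiv ℂ f w v)) := by
    intro w hw
    rw [tendsto_iff_norm_sub_tendsto_zero]
    refine squeeze_zero (fun _ => norm_nonneg _)
      (fun n => hconv n w (ball_subset_ball (by linarith) hw)) ?_
    simpa using hh_tendsto.const_mul (M / r / r * ‖v‖ ^ 2)
  exact (hasFDerivAt_of_tendstoUniformlyOn isOpen_ball hunif
    (fun n w hw => hqd n w (ball_subset_ball (by linarith) hw)) hpt
    (mem_ball_self (by positivity))).differentiableAt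

/-- A holomorphic map on an open set is bounded near each point. -/
theorem exists_ball_bound {U : Set E} (hU : IsOpen U) {f : E → F}
    (hf : DifferentiableOn ℂ f U) {z : E} (hz : z ∈ U) :
    ∃ r M : ℝ, 0 < r ∧ ball z (6 * r) ⊆ U ∧ ∀ u ∈ ball z (6 * r), ‖f u‖ ≤ M := by
  obtain ⟨ε, hε, hεU⟩ := Metric.isOpen_iff.mp hU z hz
  have hc : ContinuousAt f z := (hf.continuousOn).continuousAt (hU.mem_nhds hz)
  have : ∀ᶠ u in 𝓝 z, ‖f u‖ < ‖f z‖ + 1 :=
    hc.norm.eventually_lt_const (by linarith)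
  obtain ⟨ε', hε', hε'f⟩ := Metric.eventually_nhds_iff_ball.mp this
  refine ⟨min ε ε' / 6, ‖f z‖ + 1, by positivity, ?_, ?_⟩
  · refine (ball_subset_ball ?_).trans hεU
    have := min_le_left ε ε'
    linarith
  · intro u hu
    refine (hε'f u (ball_subset_ball ?_ hu)).le
    have := min_le_right ε ε'
    linarith

/-- Directional derivatives of a holomorphic map are holomorphic. -/
theorem differentiableOn_fderiv_apply [CompleteSpace F] {U : Set E} (hU : IsOpen U) {f : E → F}
    (hf : DifferentiableOn ℂ f U) (v : E) : DifferentiableOn ℂ (fun w => fderiv ℂ f w v) U := by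
  intro z hz
  obtain ⟨r, M, hr, hsub, hM⟩ := exists_ball_bound hU hf hz
  exact (differentiableAt_fderiv_apply hr (hf.mono hsub) hM v).differentiableWithinAt

end general

/-- The derivative of a holomorphic map of several variables is holomorphic. -/
theorem differentiableOn_fderiv {n : ℕ} {F : Type*} [NormedAddCommGroup F] [NormedSpace ℂ F]
    [CompleteSpace F] {U : Set (Fin n → ℂ)} (hU : IsOpen U) {f : (Fin n → ℂ) → F}
    (hf : DifferentiableOn ℂ f U) : DifferentiableOn ℂ (fderiv ℂ f) U := by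
  have key : fderiv ℂ f = fun w => ∑ i : Fin n,
      (ContinuousLinearMap.proj (R := ℂ) (φ := fun _ : Fin n => ℂ) i).smulRight
        (fderiv ℂ f w (Pi.single i 1)) := by
    ext w v
    simp only [FunLike.coe_sum, Finset.sum_apply,
      ContinuousLinearMap.smulRight_apply, ContinuousLinearMap.proj_apply]
    conv_lhs => rw [pi_eq_sum_univ' v]
    rw [map_sum]
    refine Finset.sum_congr rfl fun i _ => ?_
    rw [map_smul]
  rw [key]
  refine DifferentiableOn.fun_sum fun i _ => ?_
  have h1 := differentiableOn_fderiv_apply hU hf (Pi.single i 1)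
  have h2 : DifferentiableOn ℂ (fun c : F =>
      (ContinuousLinearMap.proj (R := ℂ) (φ := fun _ : Fin n => ℂ) i).smulRight c) univ := by
    exact ((ContinuousLinearMap.smulRightL ℂ (Fin n → ℂ) F
      (ContinuousLinearMap.proj (R := ℂ) (φ := fun _ : Fin n => ℂ) i)).differentiable).differentiableOn
  exact h2.comp h1 (mapsTo_univ _ _)

end Pool.Agent.Helper8.Abund
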