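import Pool.Agent.Helper16.Abund.Trace

open scoped Manifold ContDiff ENNReal Topology
open MeasureTheory Metric

namespace Pool.Agent.Helper16.Abund

theorem fibreLq_of_finiteMass {n : ℕ} {X Y : Type*} [TopologicalSpace X]
    [ChartedSpace (Fin n → ℂ) X] [TopologicalSpace Y] [ChartedSpace (Fin n → ℂ) Y]
    [IsManifold 𝓘(ℂ, Fin n → ℂ) ω X] [IsManifold 𝓘(ℂ, Fin n → ℂ) ω Y] {p : Y → X}
    (hcov : IsCoveringMap p)
    (hloc : IsLocalDiffeomorph 𝓘(ℂ, Fin n → ℂ) 𝓘(ℂ, Fin n → ℂ) ω p) {m : ℕ} (hm : 1 ≤ m)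
    {η : Y → ℂ} (hη : IsPluriForm n Y m η) (hmass : FiniteMass n m η) :
    FibreLq n p m (2 / (m : ℝ)) η := by
  classical
  intro x₀
  obtain ⟨U, σ, S⟩ := exists_sheets hcov hloc x₀
  have hm0 : (0 : ℝ) < m := by exact_mod_cast hm
  have hq : 0 < 2 / (m : ℝ) := by positivity
  set q : ℝ := 2 / (m : ℝ) with hqdef
  set χ := chartAt (Fin n → ℂ) x₀ with hχ
  have hopen : IsOpen (χ.target ∩ χ.symm ⁻¹' U) := χ.isOpen_inter_preimage_symm S.isOpen
  have hx₀ : χ x₀ ∈ χ.target ∩ χ.symm ⁻¹' U := by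
    refine ⟨mem_chart_target _ _, ?_⟩
    rw [Set.mem_preimage, χ.left_inv (mem_chart_source _ _)]
    exact S.mem
  obtain ⟨r, hr, hB⟩ := Metric.isOpen_iff.mp hopen _ hx₀
  refine ⟨r, hr, fun z hz => (hB hz).1, ?_⟩
  set B : Set (Fin n → ℂ) := ball (χ x₀) r with hBdef
  have hBo : IsOpen B := isOpen_ball
  have hsymm : MDifferentiableOn 𝓘(ℂ, Fin n → ℂ) 𝓘(ℂ, Fin n → ℂ) χ.symm χ.target :=
    mdifferentiableOn_atlas_symm (chart_mem_atlas _ x₀)
  have hψ : ∀ i, MDifferentiableOn 𝓘(ℂ, Fin n → ℂ) 𝓘(ℂ, Fin n → ℂ)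
      (fun w => σ i (χ.symm w)) B := fun i =>
    (S.mdiff i).comp (hsymm.mono fun z hz => (hB hz).1) (fun z hz => (hB hz).2)
  set g : (p ⁻¹' {x₀}) → (Fin n → ℂ) → ℂ := fun i z =>
    η (σ i (χ.symm z)) * jac n (fun w => σ i (χ.symm w)) z ^ m with hg
  have hgd : ∀ i, DifferentiableOn ℂ (g i) B := fun i => hη B _ hBo (hψ i)
  have hpt : ∀ z ∈ B, ∑' y : p ⁻¹' {χ.symm z},
      ENNReal.ofReal (‖η y * (jac n χ.symm z / jac n p y.1) ^ m‖ ^ q) =
      ∑' i, ENNReal.ofReal (‖g i z‖ ^ q) := by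
    intro z hz
    rw [S.tsum_fibre (hB hz).2 (fun y => ENNReal.ofReal
      (‖η y * (jac n χ.symm z / jac n p y) ^ m‖ ^ q))]
    congr 1
    funext i
    have : jac n (fun w => σ i (χ.symm w)) z = jac n χ.symm z / jac n p (σ i (χ.symm z)) :=
      S.jac_comp_sheet hloc i (hsymm.mdifferentiableAt
        (χ.open_target.mem_nhds (hB hz).1)) (hB hz).2
    simp only [g, this]
  set G : (p ⁻¹' {x₀}) → (Fin n → ℂ) → ℝ≥0∞ := fun i z => ENNReal.ofReal (‖g i z‖ ^ q) with hG
  have hGc : ∀ i, ContinuousOn (G i) B := fun i => by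
    apply ENNReal.continuous_ofReal.comp_continuousOn
    exact (hgd i).continuousOn.norm.rpow_const (fun _ _ => Or.inr hq.le)
  have hGm : ∀ i, AEMeasurable (G i) (volume.restrict B) := fun i =>
    (hGc i).aemeasurable hBo.measurableSet
  set J : (p ⁻¹' {x₀}) → ℝ≥0∞ := fun i => ∫⁻ z in B, G i z with hJ
  obtain ⟨C, hC⟩ := hmass
  -- two sheets meeting at a point agree
  have hdisj : ∀ i j, ∀ x ∈ U, ∀ x' ∈ U, σ i x = σ j x' → i = j := by
    intro i j x hx x' hx' h
    have hxx : x = x' := by rw [← S.sect i x hx, h, S.sect j x' hx']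
    subst hxx
    obtain ⟨k, -, hk⟩ := S.uniq (σ i x) (by rw [S.sect i x hx]; exact hx)
    have h1 := hk i (by simp only [S.sect i x hx])
    have h2 := hk j (by simp only [S.sect i x hx]; exact h.symm)
    rw [h1, h2]
  have hsum : ∀ s : Finset (p ⁻¹' {x₀}), ∑ i ∈ s, J i ≤ ENNReal.ofReal C := by
    intro s
    have h1 := hC s.card (fun _ => B) (fun j w => σ (s.equivFin.symm j) (χ.symm w))
      (fun _ => hBo) (fun j => hψ _)
      (fun j => by
        intro z hz w hw hzw
        have h2 : χ.symm z = χ.symm w := by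
          have h3 := congrArg p hzw
          simp only at h3
          rwa [S.sect _ _ (hB hz).2, S.sect _ _ (hB hw).2] at h3
        have h4 := congrArg χ h2
        rwa [χ.right_inv (hB hz).1, χ.right_inv (hB hw).1] at h4)
      (fun j k hjk => by
        refine Set.disjoint_left.mpr ?_
        rintro y ⟨z, hz, rfl⟩ ⟨w, hw, hwz⟩
        apply hjk
        have h2 := hdisj _ _ _ (hB hw).2 _ (hB hz).2 hwz
        have h3 := s.equivFin.symm.injective (Subtype.ext h2)
        exact h3.symm)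
    have h2 : ∑ i ∈ s, J i = ∑ j : Fin s.card, J (s.equivFin.symm j) := by
      rw [← Finset.sum_coe_sort s J]
      exact (Equiv.sum_comp s.equivFin.symm (fun i : s => J i)).symm
    rw [h2]
    exact h1
  have htot : ∑' i, J i ≤ ENNReal.ofReal C := by
    rw [ENNReal.tsum_eq_iSup_sum]
    exact iSup_le hsum
  have htop : ∑' i, J i ≠ ⊤ := (htot.trans_lt ENNReal.ofReal_lt_top).ne
  have hcount : (Function.support J).Countable := Summable.countable_support_ennreal htop
  have hzero : ∀ i, J i = 0 → ∀ z ∈ B, G i z = 0 := by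
    intro i hi z hz
    have h1 : G i =ᵐ[volume.restrict B] (fun _ => 0) := (lintegral_eq_zero_iff' (hGm i)).mp hi
    exact Measure.eqOn_open_of_ae_eq h1 hBo (hGc i) continuousOn_const hz
  have hfin : ∫⁻ z in B, ∑' i, G i z ≤ ∑' i, J i := by
    have : Countable (Function.support J) := hcount.to_subtype
    calc ∫⁻ z in B, ∑' i, G i z = ∫⁻ z in B, ∑' i : Function.support J, G i z := by
          refine setLIntegral_congr_fun hBo.measurableSet fun z hz => ?_
          refine (tsum_subtype_eq_of_support_subset ?_).symm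
          intro i hi hJi
          exact hi (hzero i hJi z hz)
      _ = ∑' i : Function.support J, J i := lintegral_tsum fun i => hGm i
      _ ≤ ∑' i, J i := ENNReal.tsum_comp_le_tsum_of_injective Subtype.val_injective J
  have hint : ∫⁻ z in B, ∑' y : p ⁻¹' {χ.symm z},
      ENNReal.ofReal (‖η y * (jac n χ.symm z / jac n p y.1) ^ m‖ ^ q)
      = ∫⁻ z in B, ∑' i, G i z :=
    setLIntegral_congr_fun hBo.measurableSet fun z hz => hpt z hz
  rw [hint]
  exact (hfin.trans htot).trans_lt ENNReal.ofReal_lt_top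

end Pool.Agent.Helper16.Abund
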