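import Pool.Agent.Helper16.Abund.Semi

open scoped Manifold ContDiff ENNReal Topology
open MeasureTheory Metric

namespace Pool.Agent.Helper16.Abund

/-! ### Families -/

theorem exists_max_of_summable {ι : Type*} [Nonempty ι] {f : ι → ℝ} (h0 : ∀ i, 0 ≤ f i)
    (hf : Summable f) : ∃ i, ∀ j, f j ≤ f i := by
  classical
  by_cases h : ∀ i, f i = 0
  · exact ⟨Classical.arbitrary ι, fun j => by rw [h, h]⟩
  push Not at h
  obtain ⟨i₁, hi₁⟩ := h
  have hpos : 0 < f i₁ := lt_of_le_of_ne (h0 _) (Ne.symm hi₁)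
  have hfin : {i | f i₁ ≤ f i}.Finite := by
    have h2 : ∀ᶠ i in Filter.cofinite, f i < f i₁ :=
      hf.tendsto_cofinite_zero.eventually_lt_const hpos
    refine (Filter.eventually_cofinite.1 h2).subset ?_
    intro i hi
    simpa using hi
  obtain ⟨i₂, hi₂, hmax⟩ := hfin.toFinset.exists_max_image f ⟨i₁, by simp⟩
  refine ⟨i₂, fun j => ?_⟩
  by_cases hj : f i₁ ≤ f j
  · exact hmax j (by simpa using hj)
  · have : f i₁ ≤ f i₂ := by simpa using hi₂
    linarith [not_le.mp hj]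

theorem exists_norm_le_of_powerSums {ι ι' : Type*} [Nonempty ι'] {b : ι → ℂ} {b' : ι' → ℂ}
    (hb : Summable fun i => ‖b i‖) (hb' : Summable fun i => ‖b' i‖)
    (h : ∀ j : ℕ, 1 ≤ j → ∑' i, b i ^ j = ∑' i, b' i ^ j) (i₀ : ι) :
    ∃ i', ‖b i₀‖ ≤ ‖b' i'‖ := by
  obtain ⟨i₁, hi₁⟩ := exists_max_of_summable (fun i => norm_nonneg (b' i)) hb'
  refine ⟨i₁, ?_⟩
  by_contra hlt
  push Not at hlt
  set β := ‖b i₀‖ with hβ
  set M := (‖b' i₁‖ + β) / 2 with hM
  have hM0 : 0 < M := by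
    have := norm_nonneg (b' i₁)
    rw [hM]; linarith
  have hMβ : M < β := by rw [hM]; linarith
  have hβ0 : 0 < β := hM0.trans hMβ
  have hle : ∀ i, ‖b' i‖ ≤ M := fun i => (hi₁ i).trans (by rw [hM]; linarith)
  set S := ∑' i, ‖b' i‖ with hS
  have hS0 : 0 ≤ S := tsum_nonneg fun _ => norm_nonneg _
  have hb'j : ∀ j : ℕ, 1 ≤ j → ‖∑' i, b' i ^ j‖ ≤ M ^ (j - 1) * S := by
    intro j hj
    have h1 : ∀ i, ‖b' i ^ j‖ ≤ M ^ (j - 1) * ‖b' i‖ := by
      intro i
      obtain ⟨l, rfl⟩ : ∃ l, j = l + 1 := ⟨j - 1, by omega⟩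
      rw [norm_pow, pow_succ, Nat.add_sub_cancel]
      gcongr
      exact hle i
    calc ‖∑' i, b' i ^ j‖ ≤ ∑' i, M ^ (j - 1) * ‖b' i‖ :=
          tsum_of_norm_bounded (hb'.mul_left _).hasSum h1
      _ = M ^ (j - 1) * S := tsum_mul_left
  have hlim : Filter.Tendsto (fun j : ℕ => (M / β) ^ j * (2 * S)) Filter.atTop (𝓝 0) := by
    have := (tendsto_pow_atTop_nhds_zero_of_lt_one (r := M / β) (by positivity)
      ((div_lt_one hβ0).mpr hMβ)).mul_const (2 * S)
    simpa using this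
  obtain ⟨N, hN⟩ := Filter.eventually_atTop.mp (hlim.eventually_lt_const hβ0)
  obtain ⟨j, hj, hjb⟩ := exists_powerSum (a := b) (q := 1) one_pos
    (by simpa only [Real.rpow_one] using hb) i₀ (N + 1)
  have h2 := hb'j j (by omega)
  rw [h j (by omega)] at hjb
  have h3 := hN (j - 1) (by omega)
  rw [div_pow, div_mul_eq_mul_div, div_lt_iff₀ (by positivity)] at h3
  have h4 : β * β ^ (j - 1) = β ^ j := by
    rw [← pow_succ']; congr 1; omega
  rw [h4] at h3
  nlinarith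

theorem summable_pow_of_rpow {ι : Type*} {a : ι → ℂ} {q : ℝ}
    (ha : Summable fun i => ‖a i‖ ^ q) (hq : 0 < q) {k : ℕ} (hk : q ≤ k) :
    Summable fun i => ‖a i ^ k‖ := by
  have h1 : ∀ᶠ i in Filter.cofinite, ‖a i‖ ^ q < 1 :=
    ha.tendsto_cofinite_zero.eventually_lt_const one_pos
  refine Summable.of_norm_bounded_eventually ha ?_
  filter_upwards [h1] with i hi
  rw [norm_norm, norm_pow, ← Real.rpow_natCast]
  have hlt : ‖a i‖ < 1 := by
    by_contra hge
    push Not at hge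
    exact absurd (Real.one_le_rpow hge hq.le) (not_le.mpr hi)
  rcases (norm_nonneg (a i)).eq_or_lt with h | h
  · rw [← h, Real.zero_rpow hq.ne', Real.zero_rpow]
    exact (hq.trans_le hk).ne'
  · exact Real.rpow_le_rpow_of_exponent_ge h hlt.le hk

/-! ### Identity theorem -/

/-- Identity theorem on a convex open subset of a complex normed space. -/
theorem eqOn_zero_of_eventually {E F : Type*} [NormedAddCommGroup E] [NormedSpace ℂ E]
    [NormedAddCommGroup F] [NormedSpace ℂ F] [CompleteSpace F] {U : Set E} (hU : IsOpen U)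
    (hc : Convex ℝ U) {f : E → F} (hf : DifferentiableOn ℂ f U) {z : E} (hz : z ∈ U)
    (hev : ∀ᶠ w in 𝓝 z, f w = 0) : ∀ w ∈ U, f w = 0 := by
  intro w hw
  set L : ℂ → E := fun t => z + t • (w - z) with hL
  have hLc : Continuous L := by fun_prop
  set T : Set ℂ := L ⁻¹' U with hT
  have hTo : IsOpen T := hU.preimage hLc
  have hTc : Convex ℝ T := by
    intro s hs t ht a b ha hb hab
    have h1 : L (a • s + b • t) = a • L s + b • L t := by
      simp only [hL, smul_add, add_smul, smul_assoc]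
      have h2 : z = a • z + b • z := by rw [← add_smul, hab, one_smul]
      nth_rewrite 1 [h2]
      abel
    rw [hT, Set.mem_preimage, h1]
    exact hc hs ht ha hb hab
  have hg : DifferentiableOn ℂ (fun t => f (L t)) T := by
    refine hf.comp ?_ (fun t ht => ht)
    exact (by fun_prop : Differentiable ℂ L).differentiableOn
  have hga : AnalyticOnNhd ℂ (fun t => f (L t)) T := hg.analyticOnNhd hTo
  have h0 : (0 : ℂ) ∈ T := by simpa [hT, hL] using hz
  have h1 : (1 : ℂ) ∈ T := by simpa [hT, hL] using hw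
  have hL0 : L 0 = z := by simp [hL]
  have hev0 : (fun t => f (L t)) =ᶠ[𝓝 0] 0 := by
    have : Filter.Tendsto L (𝓝 0) (𝓝 z) := by
      have := hLc.tendsto 0
      rwa [hL0] at this
    exact this.eventually hev
  have h2 := hga.eqOn_zero_of_preconnected_of_eventuallyEq_zero hTc.isPreconnected h0 hev0 h1
  simpa [hL] using h2

/-! ### Operations on forms -/

section forms

variable {n : ℕ} {X Y : Type*} [TopologicalSpace X] [ChartedSpace (Fin n → ℂ) X]
    [TopologicalSpace Y] [ChartedSpace (Fin n → ℂ) Y]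

theorem IsPluriForm.const_mul {m : ℕ} {c : X → ℂ} (h : IsPluriForm n X m c) (β : ℂ) :
    IsPluriForm n X m (fun x => β * c x) := by
  intro V ψ hV hψ
  refine ((h V ψ hV hψ).const_mul β).congr fun z _ => ?_
  simp only [mul_assoc]

theorem IsPluriForm.sub {m : ℕ} {c d : X → ℂ} (h : IsPluriForm n X m c)
    (h' : IsPluriForm n X m d) : IsPluriForm n X m (fun x => c x - d x) := by
  intro V ψ hV hψ
  refine ((h V ψ hV hψ).sub (h' V ψ hV hψ)).congr fun z _ => ?_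
  simp only [sub_mul, Pi.sub_apply]

/-- Identity theorem for pluricanonical forms on a connected manifold. -/
theorem IsPluriForm.eq_zero [ConnectedSpace Y] [IsManifold 𝓘(ℂ, Fin n → ℂ) ω Y] {m : ℕ}
    {ξ : Y → ℂ} (hξ : IsPluriForm n Y m ξ) {y₁ : Y} (hev : ∀ᶠ y in 𝓝 y₁, ξ y = 0) :
    ∀ y, ξ y = 0 := by
  set A : Set Y := {y | ∀ᶠ y' in 𝓝 y, ξ y' = 0} with hA
  have hAo : IsOpen A := isOpen_setOfPred_eventually_nhds
  have hAc : IsClosed A := by
    rw [← closure_subset_iff_isClosed]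
    intro y hy
    set χ := chartAt (Fin n → ℂ) y with hχ
    have hyt : χ y ∈ χ.target := mem_chart_target _ _
    obtain ⟨r, hr, hB⟩ := Metric.isOpen_iff.mp χ.open_target _ hyt
    have hsymm : MDifferentiableOn 𝓘(ℂ, Fin n → ℂ) 𝓘(ℂ, Fin n → ℂ) χ.symm χ.target :=
      mdifferentiableOn_atlas_symm (chart_mem_atlas _ y)
    have hf : DifferentiableOn ℂ (fun z => ξ (χ.symm z) * jac n χ.symm z ^ m)
        (ball (χ y) r) := hξ _ _ isOpen_ball (hsymm.mono hB)
    -- a point of `A` in the chart ball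
    have hN : χ.source ∩ χ ⁻¹' (ball (χ y) r) ∈ 𝓝 y :=
      (χ.isOpen_inter_preimage isOpen_ball).mem_nhds ⟨mem_chart_source _ _, mem_ball_self hr⟩
    obtain ⟨y', ⟨hy's, hy'b⟩, hy'A⟩ := mem_closure_iff_nhds.mp hy _ hN
    have h1 : ∀ᶠ z in 𝓝 (χ y'), ξ (χ.symm z) * jac n χ.symm z ^ m = 0 := by
      have hc : Filter.Tendsto χ.symm (𝓝 (χ y')) (𝓝 y') := by
        have := χ.continuousAt_symm (χ.map_source hy's)
        rwa [ContinuousAt, χ.left_inv hy's] at this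
      filter_upwards [hc.eventually hy'A] with z hz
      rw [hz, zero_mul]
    have h2 := eqOn_zero_of_eventually isOpen_ball (convex_ball _ _) hf hy'b h1
    have h3 : χ.source ∩ χ ⁻¹' (ball (χ y) r) ⊆ {y' | ξ y' = 0} := by
      rintro w ⟨hws, hwb⟩
      have h4 := h2 _ hwb
      rw [χ.left_inv hws] at h4
      exact (mul_eq_zero.mp h4).resolve_right
        (pow_ne_zero _ (jac_chart_symm_ne_zero y (hB hwb)))
    exact Filter.mem_of_superset hN h3
  have hAu : A = Set.univ := IsClopen.eq_univ ⟨hAc, hAo⟩ ⟨y₁, hev⟩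
  intro y
  have : y ∈ A := hAu ▸ Set.mem_univ y
  exact this.self_of_nhds

end forms

/-- All fibres of a covering of a connected space are infinite if one is. -/
theorem infinite_fibres {n : ℕ} {X Y : Type*} [TopologicalSpace X] [ConnectedSpace X]
    [ChartedSpace (Fin n → ℂ) X] [TopologicalSpace Y] [ChartedSpace (Fin n → ℂ) Y] {p : Y → X}
    (hcov : IsCoveringMap p)
    (hloc : IsLocalDiffeomorph 𝓘(ℂ, Fin n → ℂ) 𝓘(ℂ, Fin n → ℂ) ω p)
    (hinf : ∃ x, (p ⁻¹' {x}).Infinite) : ∀ x, (p ⁻¹' {x}).Infinite := by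
  set A : Set X := {x | (p ⁻¹' {x}).Infinite} with hA
  have key : ∀ x₀ : X, ∀ᶠ x in 𝓝 x₀, (x ∈ A ↔ x₀ ∈ A) := by
    intro x₀
    obtain ⟨U, σ, S⟩ := exists_sheets hcov hloc x₀
    filter_upwards [S.isOpen.mem_nhds S.mem] with x hx
    simp only [hA, Set.mem_ofPred_eq, ← Set.infinite_coe_iff]
    exact (S.equiv hx).symm.infinite_iff
  have hAo : IsOpen A := by
    rw [isOpen_iff_mem_nhds]
    intro x hx
    filter_upwards [key x] with x' hx'
    exact hx'.mpr hx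
  have hAc : IsClosed A := by
    rw [← isOpen_compl_iff, isOpen_iff_mem_nhds]
    intro x hx
    filter_upwards [key x] with x' hx'
    exact fun h => hx (hx'.mp h)
  have hAu : A = Set.univ := IsClopen.eq_univ ⟨hAc, hAo⟩ hinf
  intro x
  exact (hAu ▸ Set.mem_univ x : x ∈ A)

theorem exists_two_forms {n : ℕ} {X Y : Type*} [TopologicalSpace X] [ConnectedSpace X]
    [ChartedSpace (Fin n → ℂ) X] [TopologicalSpace Y] [ConnectedSpace Y]
    [ChartedSpace (Fin n → ℂ) Y]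
    [IsManifold 𝓘(ℂ, Fin n → ℂ) ω X] [IsManifold 𝓘(ℂ, Fin n → ℂ) ω Y] {p : Y → X}
    (hcov : IsCoveringMap p)
    (hloc : IsLocalDiffeomorph 𝓘(ℂ, Fin n → ℂ) 𝓘(ℂ, Fin n → ℂ) ω p) {m : ℕ} (hm : 1 ≤ m)
    {η : Y → ℂ} (hη : IsPluriForm n Y m η) {q : ℝ} (hq : 0 < q) (hLq : FibreLq n p m q η)
    (hne : ∃ y, η y ≠ 0) (hinf : ∃ x, (p ⁻¹' {x}).Infinite) :
    ∃ ℓ : ℕ, 1 ≤ ℓ ∧ ∃ c₁ c₂ : X → ℂ, IsPluriForm n X ℓ c₁ ∧ IsPluriForm n X ℓ c₂ ∧
      LinearIndependent ℂ ![c₁, c₂] := by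
  by_contra hcon
  push Not at hcon
  have hpd : MDifferentiable 𝓘(ℂ, Fin n → ℂ) 𝓘(ℂ, Fin n → ℂ) p := fun y =>
    (hloc y).mdifferentiableAt (by simp)
  have hjac : ∀ y, jac n p y ≠ 0 := jac_ne_zero hloc
  obtain ⟨y₀, hy₀⟩ := hne
  set a : Y → ℂ := fun y => η y / jac n p y ^ m with ha
  have ha₀ : a y₀ ≠ 0 := div_ne_zero hy₀ (pow_ne_zero _ (hjac _))
  have hsum : ∀ x, Summable fun y : p ⁻¹' {x} => ‖a y‖ ^ q := fun x =>
    summable_fibre_rpow hcov hloc hη hq hLq x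
  set x₀ := p y₀ with hx₀
  obtain ⟨k, hkK, hk⟩ := exists_powerSum hq (hsum x₀) (⟨y₀, rfl⟩ : p ⁻¹' {x₀}) (⌈q⌉₊ + 1)
  have hk1 : 1 ≤ k := by omega
  have hqk : q ≤ k := (Nat.le_ceil q).trans (by exact_mod_cast (by omega : ⌈q⌉₊ ≤ k))
  set σ : X → ℂ := trace n p m k η with hσ
  have hσx : ∀ x, σ x = ∑' y : p ⁻¹' {x}, a y ^ k := fun x => rfl
  have hσ₀ : σ x₀ ≠ 0 := by
    intro h0
    rw [← hσx, h0, norm_zero, mul_zero] at hk
    have : 0 < ‖a y₀‖ ^ k := pow_pos (norm_pos_iff.mpr ha₀) k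
    linarith
  have hσf : IsPluriForm n X (m * k) σ := isPluriForm_trace hcov hloc hη hq hLq hqk
  -- proportionality
  have hprop : ∀ j : ℕ, 1 ≤ j → ∃ C : ℂ, ∀ x, ∑' y : p ⁻¹' {x}, a y ^ (k * j) = C * σ x ^ j := by
    intro j hj
    have h1 : IsPluriForm n X (m * (k * j)) (trace n p m (k * j) η) :=
      isPluriForm_trace hcov hloc hη hq hLq (hqk.trans (by
        have : k ≤ k * j := Nat.le_mul_of_pos_right k hj
        exact_mod_cast this))
    have h2 : IsPluriForm n X (m * (k * j)) (fun x => σ x ^ j) := by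
      rw [← mul_assoc]
      exact hσf.pow j
    have h3 := hcon (m * (k * j)) (Nat.mul_pos hm (Nat.mul_pos hk1 hj)) _ _ h1 h2
    rw [LinearIndependent.pair_iff] at h3
    push Not at h3
    obtain ⟨s, t, hst, hne⟩ := h3
    have h4 : ∀ x, s * trace n p m (k * j) η x + t * σ x ^ j = 0 := fun x => by
      have := congrFun hst x
      simpa using this
    have hs : s ≠ 0 := by
      intro hs
      have ht := hne hs
      have h5 := h4 x₀
      rw [hs, zero_mul, zero_add] at h5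
      exact (mul_ne_zero ht (pow_ne_zero _ hσ₀)) h5
    refine ⟨-t / s, fun x => ?_⟩
    have h5 := h4 x
    change trace n p m (k * j) η x = -t / s * σ x ^ j
    field_simp
    linear_combination h5
  -- normalized values
  have hbs : ∀ x, Summable fun y : p ⁻¹' {x} => ‖a y ^ k / σ x‖ := fun x => by
    simp only [norm_div]
    exact (summable_pow_of_rpow (hsum x) hq hqk).div_const _
  have hpow : ∀ x x', σ x ≠ 0 → σ x' ≠ 0 → ∀ j : ℕ, 1 ≤ j →
      ∑' y : p ⁻¹' {x}, (a y ^ k / σ x) ^ j = ∑' y : p ⁻¹' {x'}, (a y ^ k / σ x') ^ j := by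
    intro x x' hx hx' j hj
    obtain ⟨C, hC⟩ := hprop j hj
    have h1 : ∀ x, σ x ≠ 0 → ∑' y : p ⁻¹' {x}, (a y ^ k / σ x) ^ j = C := by
      intro x hx
      have h2 : (fun y : p ⁻¹' {x} => (a y ^ k / σ x) ^ j) =
          fun y : p ⁻¹' {x} => a y ^ (k * j) * (σ x ^ j)⁻¹ := by
        funext y
        rw [div_pow, ← pow_mul, div_eq_mul_inv]
      rw [h2, tsum_mul_right, hC, mul_assoc, mul_inv_cancel₀ (pow_ne_zero _ hx), mul_one]
    rw [h1 x hx, h1 x' hx']
  have hne₀ : Nonempty (p ⁻¹' {x₀}) := ⟨⟨y₀, rfl⟩⟩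
  obtain ⟨y₁, hy₁⟩ := exists_max_of_summable (fun y : p ⁻¹' {x₀} => norm_nonneg (a y ^ k / σ x₀))
    (hbs x₀)
  have hmax : ∀ y : Y, σ (p y) ≠ 0 → ‖a y ^ k / σ (p y)‖ ≤ ‖a y₁ ^ k / σ x₀‖ := by
    intro y hy
    obtain ⟨y', hy'⟩ := exists_norm_le_of_powerSums (hbs (p y)) (hbs x₀) (hpow _ _ hy hσ₀)
      (⟨y, rfl⟩ : p ⁻¹' {p y})
    exact hy'.trans (hy₁ y')
  have hpy₁ : p y₁.1 = x₀ := y₁.2
  -- the local coordinate at `y₁`
  set χ := chartAt (Fin n → ℂ) y₁.1 with hχ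
  set z₁ := χ y₁.1 with hz₁
  have hz₁t : z₁ ∈ χ.target := mem_chart_target _ _
  have hψ₁ : χ.symm z₁ = y₁.1 := χ.left_inv (mem_chart_source _ _)
  have hsymm : MDifferentiableOn 𝓘(ℂ, Fin n → ℂ) 𝓘(ℂ, Fin n → ℂ) χ.symm χ.target :=
    mdifferentiableOn_atlas_symm (chart_mem_atlas _ y₁.1)
  set P : (Fin n → ℂ) → ℂ := fun z => (η (χ.symm z) * jac n χ.symm z ^ m) ^ k with hP
  have hPd : DifferentiableOn ℂ P χ.target := (hη _ _ χ.open_target hsymm).pow k
  set D : (Fin n → ℂ) → ℂ := fun z =>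
    (σ (p (χ.symm z)) * jac n p (χ.symm z) ^ (m * k)) * jac n χ.symm z ^ (m * k) with hD
  have hDd : DifferentiableOn ℂ D χ.target := (hσf.pullback hpd) _ _ χ.open_target hsymm
  have hjs : ∀ z ∈ χ.target, jac n χ.symm z ≠ 0 := fun z hz => jac_chart_symm_ne_zero y₁.1 hz
  have hPD : ∀ z ∈ χ.target, P z / D z = a (χ.symm z) ^ k / σ (p (χ.symm z)) := by
    intro z hz
    have h1 := hjs z hz
    have h2 := hjac (χ.symm z)
    simp only [hP, hD, ha, mul_pow, div_pow, ← pow_mul]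
    by_cases h3 : σ (p (χ.symm z)) = 0
    · simp [h3]
    · field_simp
  have hD₁ : D z₁ ≠ 0 := by
    simp only [hD, hψ₁, hpy₁]
    exact mul_ne_zero (mul_ne_zero hσ₀ (pow_ne_zero _ (hjac _))) (pow_ne_zero _ (hjs _ hz₁t))
  have hDev : ∀ᶠ z in 𝓝 z₁, D z ≠ 0 :=
    (hDd.continuousOn.continuousAt (χ.open_target.mem_nhds hz₁t)).eventually_ne hD₁
  have htev : ∀ᶠ z in 𝓝 z₁, z ∈ χ.target := χ.open_target.mem_nhds hz₁t
  have hdiff : ∀ᶠ z in 𝓝 z₁, DifferentiableAt ℂ (fun z => P z / D z) z := by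
    filter_upwards [hDev, htev] with z h1 h2
    simp only [div_eq_mul_inv]
    exact ((hPd z h2).differentiableAt (χ.open_target.mem_nhds h2)).fun_mul
      (((hDd z h2).differentiableAt (χ.open_target.mem_nhds h2)).fun_inv h1)
  have hloc_max : IsLocalMax (norm ∘ fun z => P z / D z) z₁ := by
    filter_upwards [hDev, htev] with z h1 h2
    simp only [Function.comp]
    rw [hPD z h2, hPD z₁ hz₁t, hψ₁, hpy₁]
    refine hmax _ ?_
    intro h0
    apply h1
    simp only [hD, h0, zero_mul]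
  have hconst := Complex.eventually_eq_of_isLocalMax_norm hdiff hloc_max
  set β : ℂ := P z₁ / D z₁ with hβ
  have hβ' : β = a y₁ ^ k / σ x₀ := by
    rw [hβ, hPD z₁ hz₁t, hψ₁, hpy₁]
  -- the difference form
  have hξ : IsPluriForm n Y (m * k)
      (fun y => η y ^ k - β * (σ (p y) * jac n p y ^ (m * k))) :=
    (hη.pow k).sub ((hσf.pullback hpd).const_mul β)
  have hξ0 : ∀ᶠ z in 𝓝 z₁, η (χ.symm z) ^ k -
      β * (σ (p (χ.symm z)) * jac n p (χ.symm z) ^ (m * k)) = 0 := by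
    filter_upwards [hconst, hDev, htev] with z h1 h2 h3
    have h4 : P z = β * D z := by
      rw [← h1]
      field_simp
    have h5 := pow_ne_zero (m * k) (hjs z h3)
    have h6 : (η (χ.symm z) ^ k -
      β * (σ (p (χ.symm z)) * jac n p (χ.symm z) ^ (m * k))) * jac n χ.symm z ^ (m * k) = 0 := by
      have h7 : P z = η (χ.symm z) ^ k * jac n χ.symm z ^ (m * k) := by
        simp only [hP]; rw [mul_pow, ← pow_mul]
      rw [sub_mul, ← h7, h4]
      simp only [hD]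
      ring
    exact (mul_eq_zero.mp h6).resolve_right h5
  have hξ1 : ∀ᶠ y in 𝓝 y₁.1, η y ^ k - β * (σ (p y) * jac n p y ^ (m * k)) = 0 := by
    have hc : Filter.Tendsto χ (𝓝 y₁.1) (𝓝 z₁) :=
      χ.continuousAt (mem_chart_source _ _)
    filter_upwards [hc.eventually hξ0, χ.open_source.mem_nhds (mem_chart_source _ y₁.1)]
      with y h1 h2
    rwa [χ.left_inv h2] at h1
  have hall := hξ.eq_zero hξ1
  -- all values over `x₀` have the same absolute value
  have hval : ∀ y : p ⁻¹' {x₀}, a y ^ k = β * σ x₀ := by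
    intro y
    have h1 := hall y.1
    have h2 : p y.1 = x₀ := y.2
    rw [h2] at h1
    simp only [ha, div_pow, ← pow_mul]
    rw [div_eq_iff (pow_ne_zero _ (hjac _))]
    linear_combination h1
  have hβ0 : β * σ x₀ ≠ 0 := by
    rw [← hval ⟨y₀, rfl⟩]
    exact pow_ne_zero _ ha₀
  have hnorm : ∀ y : p ⁻¹' {x₀}, ‖a y‖ ^ q = ‖a y₀‖ ^ q := by
    intro y
    have h1 : ‖a y‖ ^ k = ‖a y₀‖ ^ k := by
      rw [← norm_pow, ← norm_pow, hval y, hval ⟨y₀, rfl⟩]
    have h2 : ‖a y‖ = ‖a y₀‖ :=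
      (pow_left_inj₀ (norm_nonneg _) (norm_nonneg _) (by omega)).mp h1
    rw [h2]
  have hinf₀ : Infinite (p ⁻¹' {x₀}) :=
    Set.infinite_coe_iff.mpr (infinite_fibres hcov hloc hinf x₀)
  have h1 := hsum x₀
  simp only [hnorm] at h1
  have h2 := (summable_const_iff _).mp h1
  have h3 : 0 < ‖a y₀‖ ^ q := Real.rpow_pos_of_pos (norm_pos_iff.mpr ha₀) q
  linarith

end Pool.Agent.Helper16.Abund
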